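import Pool.Agent.Lib.MP_4fbe7c_an.FC.Iface
import Pool.Agent.Lib.MP_4fbe7c_an.SD.Apri1
import Pool.Agent.Lib.MP_4fbe7c_an.SD.Calc

/-!
Module MASS (helper21) of the project FC.
-/

set_option autoImplicit false

open Set MeasureTheory

namespace Pool.Agent.Lib.MP_4fbe7c_an.FC.H21

open Pool.Agent.Lib.MP_4fbe7c_an.SD Pool.Agent.Lib.MP_4fbe7c_an.FC

section

variable {L M : ℝ} {m : ℝ → ℝ} {N : ℕ} {d : Fin N → ℝ} {u v w : Fin N → ℝ → ℝ → ℝ}

theorem contU (h : Ctx L M m d u v w) :
    ContinuousOn (fun p : ℝ × ℝ => ∑ k, u k p.1 p.2) (Ici 0 ×ˢ Icc 0 L) :=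
  continuousOn_finsetSum _ fun k _ => h.sol.cu k

/-- the derivative of the total mass -/
theorem mass_deriv (h : Ctx L M m d u v w) {t : ℝ} (ht : 0 < t) :
    HasDerivAt (mass L u) (∫ x in (0)..L, (∑ k, u k t x) * (m x - ∑ k, u k t x)) t := by
  have hL := h.hL
  have hsub : Ioi (0 : ℝ) ×ˢ Icc 0 L ⊆ Ici 0 ×ˢ Icc 0 L :=
    prod_mono Ioi_subset_Ici_self subset_rfl
  have hcu : ContinuousOn (fun p : ℝ × ℝ => ∑ k, u k p.1 p.2) (Ioi 0 ×ˢ Icc 0 L) :=
    (contU h).mono hsub
  have hcm : ContinuousOn (fun p : ℝ × ℝ => m p.2) (Ioi (0 : ℝ) ×ˢ Icc 0 L) :=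
    h.hm.comp continuousOn_snd fun _ hp => hp.2
  have hct : ContinuousOn (fun p : ℝ × ℝ => ∑ k, (d k * w k p.1 p.2 +
      u k p.1 p.2 * (m p.2 - ∑ j, u j p.1 p.2))) (Ioi 0 ×ˢ Icc 0 L) := by
    apply continuousOn_finsetSum _ fun k _ => ?_
    exact (continuousOn_const.mul (h.sol.cw k)).add
      (((h.sol.cu k).mono hsub).mul (hcm.sub hcu))
  have hd := hasDerivAt_integral (g := fun t x => ∑ k, u k t x)
    (gt := fun t x => ∑ k, (d k * w k t x + u k t x * (m x - ∑ j, u j t x))) hL hcu hct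
    (fun s hs x hx => HasDerivAt.fun_sum fun k _ => h.sol.dt k s hs x hx) t ht
  have e : ∫ x in (0)..L, ∑ k, (d k * w k t x + u k t x * (m x - ∑ j, u j t x)) =
      ∫ x in (0)..L, (∑ k, u k t x) * (m x - ∑ k, u k t x) := by
    have hw : ∀ k, IntervalIntegrable (w k t) volume 0 L := fun k =>
      (slice (h.sol.cw k) ht).intervalIntegrable_of_Icc hL.le
    have hu : ∀ k, ContinuousOn (u k t) (Icc 0 L) := fun k =>
      slice (A := Ici 0) (h.sol.cu k) (mem_Ici.2 ht.le)
    have hU : ContinuousOn (fun x => ∑ k, u k t x) (Icc 0 L) :=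
      continuousOn_finsetSum _ fun k _ => hu k
    have e1 : ∀ x, ∑ k, (d k * w k t x + u k t x * (m x - ∑ j, u j t x)) =
        (∑ k, d k * w k t x) + (∑ k, u k t x) * (m x - ∑ k, u k t x) := by
      intro x
      rw [Finset.sum_add_distrib, Finset.sum_mul]
    simp_rw [e1]
    rw [intervalIntegral.integral_add, intervalIntegral.integral_finsetSum]
    · have e2 : ∑ k, ∫ x in (0)..L, d k * w k t x = 0 := by
        apply Finset.sum_eq_zero
        intro k _
        rw [intervalIntegral.integral_const_mul, integral_deriv hL (h.sol.dxx k t ht)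
          (slice (h.sol.cw k) ht), h.sol.b0 k t ht, h.sol.bL k t ht, sub_zero, mul_zero]
      rw [e2, zero_add]
    · exact fun k _ => (hw k).const_mul _
    · apply ContinuousOn.intervalIntegrable_of_Icc hL.le
      exact continuousOn_finsetSum _ fun k _ => continuousOn_const.mul (slice (h.sol.cw k) ht)
    · exact (hU.mul (h.hm.sub hU)).intervalIntegrable_of_Icc hL.le
  rw [e] at hd
  exact hd

theorem mass_facts (h : Ctx L M m d u v w) {t : ℝ} (ht : 0 < t) :
    let I' := ∫ x in (0)..L, (∑ k, u k t x) * (m x - ∑ k, u k t x)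
    0 ≤ mass L u t ∧ U2 L u t ≤ -I' + M * mass L u t ∧
      4 * M * mass L u t - 4 * M ^ 2 * L ≤ U2 L u t ∧
      R2 L m u t ≤ 2 * (M ^ 2 * L) + 2 * U2 L u t := by
  intro I'
  have hL := h.hL
  have hM0 := h.hM0
  have hnn := nonneg hL h.hm h.hd h.sol
  have hU0 : ∀ x ∈ Icc 0 L, 0 ≤ ∑ k, u k t x := fun x hx =>
    Finset.sum_nonneg fun k _ => hnn k t ht.le x hx
  have hU : ContinuousOn (fun x => ∑ k, u k t x) (Icc 0 L) :=
    continuousOn_finsetSum _ fun k _ => slice (A := Ici 0) (h.sol.cu k) (mem_Ici.2 ht.le)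
  have iU : IntervalIntegrable (fun x => ∑ k, u k t x) volume 0 L :=
    hU.intervalIntegrable_of_Icc hL.le
  have iU2 : IntervalIntegrable (fun x => (∑ k, u k t x) ^ 2) volume 0 L :=
    (hU.pow 2).intervalIntegrable_of_Icc hL.le
  have iI : IntervalIntegrable (fun x => (∑ k, u k t x) * (m x - ∑ k, u k t x)) volume 0 L :=
    (hU.mul (h.hm.sub hU)).intervalIntegrable_of_Icc hL.le
  have iR : IntervalIntegrable (fun x => (m x - ∑ k, u k t x) ^ 2) volume 0 L :=
    ((h.hm.sub hU).pow 2).intervalIntegrable_of_Icc hL.le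
  have hmb : ∀ x ∈ Icc 0 L, m x ≤ M := fun x hx => (le_abs_self _).trans (h.hM x hx)
  refine ⟨intervalIntegral.integral_nonneg hL.le hU0, ?_, ?_, ?_⟩
  · have e : U2 L u t + I' = ∫ x in (0)..L, ((∑ k, u k t x) ^ 2 +
        (∑ k, u k t x) * (m x - ∑ k, u k t x)) := (intervalIntegral.integral_add iU2 iI).symm
    have e2 : M * mass L u t = ∫ x in (0)..L, M * ∑ k, u k t x :=
      (intervalIntegral.integral_const_mul _ _).symm
    have : U2 L u t + I' ≤ M * mass L u t := by
      rw [e, e2]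
      apply intervalIntegral.integral_mono_on hL.le (iU2.add iI) (iU.const_mul _)
      intro x hx
      have h1 := hU0 x hx
      have h2 := hmb x hx
      nlinarith [mul_le_mul_of_nonneg_left h2 h1]
    linarith
  · have e : 4 * M * mass L u t - 4 * M ^ 2 * L =
        ∫ x in (0)..L, (4 * M * (∑ k, u k t x) - 4 * M ^ 2) := by
      rw [intervalIntegral.integral_sub (iU.const_mul _) intervalIntegrable_const,
        intervalIntegral.integral_const_mul, intervalIntegral.integral_const]
      simp only [sub_zero, smul_eq_mul, mass]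
      ring
    rw [e]
    apply intervalIntegral.integral_mono_on hL.le
      ((iU.const_mul _).sub intervalIntegrable_const) iU2
    intro x _
    nlinarith [sq_nonneg ((∑ k, u k t x) - 2 * M)]
  · have e : 2 * (M ^ 2 * L) + 2 * U2 L u t =
        ∫ x in (0)..L, (2 * M ^ 2 + 2 * (∑ k, u k t x) ^ 2) := by
      rw [intervalIntegral.integral_add intervalIntegrable_const (iU2.const_mul _),
        intervalIntegral.integral_const, intervalIntegral.integral_const_mul]
      simp only [sub_zero, smul_eq_mul, U2]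
      ring
    rw [e]
    apply intervalIntegral.integral_mono_on hL.le iR
      (intervalIntegrable_const.add (iU2.const_mul _))
    intro x hx
    have h1 : m x ^ 2 ≤ M ^ 2 := sq_le_sq' (abs_le.1 (h.hM x hx)).1 (hmb x hx)
    nlinarith [sq_nonneg (m x + ∑ k, u k t x)]

end

theorem mass : MassStatement := by
  intro L M m N d u v w h
  have hL := h.hL
  have hM0 := h.hM0
  have hnn := nonneg hL h.hm h.hd h.sol
  have hI0 : ∀ t, 0 ≤ t → 0 ≤ FC.mass L u t := fun t ht =>
    intervalIntegral.integral_nonneg hL.le fun x hx =>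
      Finset.sum_nonneg fun k _ => hnn k t ht x hx
  refine ⟨hI0, ?_⟩
  have hcI : ContinuousOn (FC.mass L u) (Ici 0) := continuousOn_integral hL (contU h)
  -- `exp(3 M t) (I - 4 M L / 3)` decreases
  have hanti : AntitoneOn (fun t => Real.exp (3 * M * t) * (FC.mass L u t - 4 / 3 * (M * L)))
      (Ici 0) := by
    apply antitoneOn_of_deriv_nonpos (convex_Ici 0)
    · exact (Continuous.continuousOn (by fun_prop)).mul (hcI.sub continuousOn_const)
    · intro t ht
      rw [interior_Ici] at ht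
      have h1 : HasDerivAt (fun t : ℝ => 3 * M * t) (3 * M) t := by
        simpa using (hasDerivAt_id t).const_mul (3 * M)
      exact (h1.exp.mul ((mass_deriv h ht).sub_const _)).differentiableAt.differentiableWithinAt
    · intro t ht
      rw [interior_Ici] at ht
      have h1 : HasDerivAt (fun t : ℝ => 3 * M * t) (3 * M) t := by
        simpa using (hasDerivAt_id t).const_mul (3 * M)
      have h2 := h1.exp.mul ((mass_deriv h ht).sub_const (4 / 3 * (M * L)))
      rw [show (fun t => Real.exp (3 * M * t) * (FC.mass L u t - 4 / 3 * (M * L))) =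
        (fun t => Real.exp (3 * M * t)) * fun t => FC.mass L u t - 4 / 3 * (M * L) from rfl,
        h2.deriv]
      obtain ⟨-, f2, f3, -⟩ := mass_facts h (t := t) ht
      obtain ⟨I', hI'⟩ : ∃ I', I' = ∫ x in (0)..L, (∑ k, u k t x) * (m x - ∑ k, u k t x) :=
        ⟨_, rfl⟩
      rw [← hI'] at f2 ⊢
      have h5 := Real.exp_pos (3 * M * t)
      have h6 : 3 * M * (FC.mass L u t - 4 / 3 * (M * L)) + I' ≤ 0 := by nlinarith
      have h7 : Real.exp (3 * M * t) * (3 * M) * (FC.mass L u t - 4 / 3 * (M * L)) +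
          Real.exp (3 * M * t) * I' =
          Real.exp (3 * M * t) * (3 * M * (FC.mass L u t - 4 / 3 * (M * L)) + I') := by ring
      rw [h7]
      exact mul_nonpos_of_nonneg_of_nonpos h5.le h6
  obtain ⟨I0, hI0'⟩ : ∃ I0, I0 = FC.mass L u 0 := ⟨_, rfl⟩
  have hI00 : 0 ≤ I0 := by rw [hI0']; exact hI0 0 le_rfl
  refine ⟨I0 / (2 * M ^ 2 * L) + 1, by positivity, fun t ht => ?_⟩
  have ht0 : 0 < t := by
    have : 0 ≤ I0 / (2 * M ^ 2 * L) := by positivity
    linarith
  have hle : FC.mass L u t ≤ 2 * M * L := by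
    have h1 := hanti (mem_Ici.2 le_rfl) (mem_Ici.2 ht0.le) ht0.le
    simp only [mul_zero, Real.exp_zero, one_mul] at h1
    rw [← hI0'] at h1
    by_contra hcon
    have h2 : 2 * M * L < FC.mass L u t := not_le.1 hcon
    have h3 : 2 / 3 * (M * L) < FC.mass L u t - 4 / 3 * (M * L) := by linarith
    have h4 : 3 * M * t ≤ Real.exp (3 * M * t) := by
      have := Real.add_one_le_exp (3 * M * t)
      linarith
    have h5 : I0 ≤ 2 * M ^ 2 * L * t := by
      have h6 : I0 / (2 * M ^ 2 * L) ≤ t := by linarith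
      rw [div_le_iff₀ (by positivity)] at h6
      linarith
    have hML : 0 < M * L := by positivity
    have h7 : 3 * M * t * (2 / 3 * (M * L)) ≤
        Real.exp (3 * M * t) * (FC.mass L u t - 4 / 3 * (M * L)) :=
      mul_le_mul h4 h3.le (by positivity) (Real.exp_pos _).le
    nlinarith
  obtain ⟨-, f2, f3, f4⟩ := mass_facts h (t := t) ht0
  refine ⟨hle, _, mass_deriv h ht0, ?_, ?_⟩
  · have : M * FC.mass L u t ≤ M * (2 * M * L) := mul_le_mul_of_nonneg_left hle hM0.le
    nlinarith
  · have : M * FC.mass L u t ≤ M * (2 * M * L) := mul_le_mul_of_nonneg_left hle hM0.le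
    nlinarith

end Pool.Agent.Lib.MP_4fbe7c_an.FC.H21
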