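import Pool.Agent.Lib.MP_4fbe7c_an.FC.Iface
import Pool.Agent.Lib.MP_4fbe7c_an.SD.Apri1

/-!
Module SUPB (helper21) of the project FC.
-/

set_option autoImplicit false

open Set MeasureTheory

namespace Pool.Agent.Lib.MP_4fbe7c_an.FC.H21

open Pool.Agent.Lib.MP_4fbe7c_an.SD Pool.Agent.Lib.MP_4fbe7c_an.FC

theorem supb_one {L M : ℝ} {m : ℝ → ℝ} {N : ℕ} {d : Fin N → ℝ} {u v w : Fin N → ℝ → ℝ → ℝ}
    (h : Ctx L M m d u v w) (i : Fin N) {B : ℝ} (hB : 0 ≤ B) (h0 : ∀ x ∈ Icc 0 L, u i 0 x ≤ B) :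
    ∀ t, 0 ≤ t → ∀ x ∈ Icc 0 L, u i t x ≤ M + B * Real.exp (-(M * t)) := by
  intro T hT x hx
  have hL := h.hL
  have hM0 := h.hM0
  have hsub : Icc 0 T ×ˢ Icc 0 L ⊆ Ici 0 ×ˢ Icc 0 L :=
    prod_mono (fun t ht => ht.1) (fun _ h => h)
  have hnn := nonneg hL h.hm h.hd h.sol
  have hexp : ∀ t : ℝ, HasDerivAt (fun r => M + B * Real.exp (-(M * r)))
      (-(M * (B * Real.exp (-(M * t))))) t := by
    intro t
    have h0 : HasDerivAt (fun r : ℝ => M * r) M t := by
      simpa using (hasDerivAt_id t).const_mul M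
    have h1 : HasDerivAt (fun r : ℝ => -(M * r)) (-M) t := h0.neg
    have h2 : HasDerivAt (fun r => M + B * Real.exp (-(M * r)))
        (B * (Real.exp (-(M * t)) * -M)) t := ((h1.exp).const_mul B).const_add M
    have e : -(M * (B * Real.exp (-(M * t)))) = B * (Real.exp (-(M * t)) * -M) := by ring
    rw [e]
    exact h2
  have := comparison (w := fun t x => u i t x - (M + B * Real.exp (-(M * t))))
    (wx := v i) (wxx := w i)
    (wt := fun t x => (d i * w i t x + u i t x * (m x - ∑ j, u j t x)) -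
      -(M * (B * Real.exp (-(M * t)))))
    (c := fun _ _ => 0) (d := d i) (K := 0) (s := 0) (T := T) hL (h.hd i).le hT
    (by
      apply ContinuousOn.sub
      · exact (h.sol.cu i).mono hsub
      · apply Continuous.continuousOn
        fun_prop)
    (fun t ht y hy => (h.sol.dx i t ht.1 y hy).sub_const _)
    (fun t ht y hy => h.sol.dxx i t ht.1 y hy)
    (fun t ht => h.sol.b0 i t ht.1)
    (fun t ht => h.sol.bL i t ht.1)
    (fun t ht y hy => (h.sol.dt i t ht.1 y hy).sub (hexp t))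
    (fun t ht y hy hw => by
      have hw' : 0 < u i t y - (M + B * Real.exp (-(M * t))) := hw
      show (d i * w i t y + u i t y * (m y - ∑ j, u j t y)) -
        -(M * (B * Real.exp (-(M * t)))) ≤
        d i * w i t y + 0 * (u i t y - (M + B * Real.exp (-(M * t))))
      have h1 : u i t y ≤ ∑ j, u j t y :=
        Finset.single_le_sum (f := fun j => u j t y) (fun j _ => hnn j t ht.1.le y hy)
          (Finset.mem_univ i)
      have h2 : m y ≤ M := (le_abs_self _).trans (h.hM y hy)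
      have h3 : 0 ≤ B * Real.exp (-(M * t)) := mul_nonneg hB (Real.exp_pos _).le
      have h4 : u i t y * (m y - ∑ j, u j t y) ≤ u i t y * (-(B * Real.exp (-(M * t)))) :=
        mul_le_mul_of_nonneg_left (by linarith) (hnn i t ht.1.le y hy)
      have h5 : M * (B * Real.exp (-(M * t))) ≤ u i t y * (B * Real.exp (-(M * t))) :=
        mul_le_mul_of_nonneg_right (by linarith) h3
      linarith)
    (fun _ _ _ _ => le_rfl)
    (fun y hy => by
      have := h0 y hy
      show u i 0 y - (M + B * Real.exp (-(M * 0))) ≤ 0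
      rw [mul_zero, neg_zero, Real.exp_zero, mul_one]
      linarith)
    T ⟨hT, le_rfl⟩ x hx
  have h2 : u i T x - (M + B * Real.exp (-(M * T))) ≤ 0 := this
  linarith

theorem supb : SupBStatement := by
  intro L M m N d u v w h
  have hL := h.hL
  have hM0 := h.hM0
  have hb : ∀ i : Fin N, ∃ B : ℝ, 0 ≤ B ∧ ∀ x ∈ Icc 0 L, u i 0 x ≤ B := by
    intro i
    have hc : ContinuousOn (u i 0) (Icc 0 L) := by
      have h1 : ContinuousOn (fun x : ℝ => (((0 : ℝ), x) : ℝ × ℝ)) (Icc 0 L) := by fun_prop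
      exact (h.sol.cu i).comp h1 fun x hx => mk_mem_prod (mem_Ici.2 le_rfl) hx
    obtain ⟨C, hC⟩ := isCompact_Icc.exists_bound_of_continuousOn hc
    exact ⟨max C 0, le_max_right _ _, fun x hx =>
      (le_abs_self _).trans ((hC x hx).trans (le_max_left _ _))⟩
  choose B hB0 hB using hb
  have hS0 : 0 ≤ ∑ i, B i := Finset.sum_nonneg fun i _ => hB0 i
  refine ⟨(∑ i, B i) / M + 1, by positivity, fun t ht x hx i => ?_⟩
  have ht0 : 0 ≤ t := le_trans (by positivity) ht
  have h1 := supb_one h i (hB0 i) (hB i) t ht0 x hx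
  have h2 : B i ≤ ∑ i, B i := Finset.single_le_sum (fun j _ => hB0 j) (Finset.mem_univ i)
  have h3 : ∑ i, B i ≤ M * t := by
    have h4 : (∑ i, B i) / M ≤ t := by linarith
    rw [div_le_iff₀ hM0] at h4
    linarith
  have h5 : M * t ≤ Real.exp (M * t) := by
    have := Real.add_one_le_exp (M * t)
    linarith
  have h6 : B i * Real.exp (-(M * t)) ≤ 1 := by
    rw [Real.exp_neg, ← div_eq_mul_inv, div_le_one (Real.exp_pos _)]
    linarith
  linarith

end Pool.Agent.Lib.MP_4fbe7c_an.FC.H21
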