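import Pool.Agent.Lib.MP_4fbe7c_an.FC.Iface
import Pool.Agent.Lib.MP_4fbe7c_an.SD.Calc

/-!
Module TST (helper21) of the project FC.
-/

set_option autoImplicit false

open Set MeasureTheory

namespace Pool.Agent.Lib.MP_4fbe7c_an.FC.H21

open Pool.Agent.Lib.MP_4fbe7c_an.SD Pool.Agent.Lib.MP_4fbe7c_an.FC

theorem tst : TstStatement := by
  intro L B P κ f f' ψ hL hB hκ hf hf' hψ hfB hψP hψ0
  have hfc : ContinuousOn f (Icc 0 L) := hf.continuousOn
  have hP : 0 ≤ P := (abs_nonneg _).trans (hψP 0 (left_mem_Icc.2 hL.le))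
  have hq : ContinuousOn (fun x => f' x / f x) (Icc 0 L) :=
    hf'.div hfc fun x hx => (hfB x hx).1.ne'
  obtain ⟨c, hc⟩ : ∃ c, c = P ^ 2 * B ^ 2 * L ^ 2 / (4 * κ) := ⟨_, rfl⟩
  have hc0 : 0 ≤ c := by rw [hc]; positivity
  obtain ⟨g, hg⟩ : ∃ g : ℝ → ℝ, g = fun x => κ / L ^ 2 + c * (f' x / f x) ^ 2 := ⟨_, rfl⟩
  have hgc : ContinuousOn g (Icc 0 L) := by
    rw [hg]
    exact continuousOn_const.add (continuousOn_const.mul (hq.pow 2))
  have hg0 : ∀ x, 0 ≤ g x := by
    intro x
    rw [hg]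
    positivity
  -- the pointwise bound
  have hpt : ∀ x ∈ Icc 0 L, P * |f' x| ≤ g x := by
    intro x hx
    obtain ⟨z, hz⟩ : ∃ z, z = f' x / f x := ⟨_, rfl⟩
    have h1 : |f' x| ≤ B * |z| := by
      have h2 : f' x = z * f x := by
        rw [hz, div_mul_cancel₀ _ (hfB x hx).1.ne']
      rw [h2, abs_mul, abs_of_pos (hfB x hx).1, mul_comm]
      exact mul_le_mul_of_nonneg_right (hfB x hx).2 (abs_nonneg _)
    have h3 : P * (B * |z|) ≤ κ / L ^ 2 + c * z ^ 2 := by
      have h4 : c * z ^ 2 = (P * B * L * |z|) ^ 2 / (4 * κ) := by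
        rw [hc, ← sq_abs z]
        ring
      rw [h4]
      have h5 : κ / L ^ 2 + (P * B * L * |z|) ^ 2 / (4 * κ) - P * (B * |z|) =
          (2 * κ - P * B * L ^ 2 * |z|) ^ 2 / (4 * κ * L ^ 2) := by
        field_simp
        ring
      have h6 : 0 ≤ (2 * κ - P * B * L ^ 2 * |z|) ^ 2 / (4 * κ * L ^ 2) := by positivity
      linarith
    rw [hg]
    simp only
    rw [← hz]
    exact (mul_le_mul_of_nonneg_left h1 hP).trans h3
  have hgi : IntervalIntegrable g volume 0 L := hgc.intervalIntegrable_of_Icc hL.le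
  obtain ⟨K, hK⟩ : ∃ K, K = ∫ x in (0)..L, g x := ⟨_, rfl⟩
  have hKe : K * L = κ + P ^ 2 * B ^ 2 * L ^ 3 / (4 * κ) * ∫ x in (0)..L, (f' x / f x) ^ 2 := by
    rw [hK, hg, intervalIntegral.integral_add, intervalIntegral.integral_const,
      intervalIntegral.integral_const_mul, hc]
    · simp only [sub_zero, smul_eq_mul]
      field_simp
    · exact intervalIntegrable_const
    · exact (continuousOn_const.mul (hq.pow 2)).intervalIntegrable_of_Icc hL.le
  rw [← hKe]
  -- the oscillation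
  have hosc : ∀ x ∈ Icc 0 L, |f x - f 0| * P ≤ K := by
    intro x hx
    rw [← integral_deriv_sub hf hf' (left_mem_Icc.2 hL.le) hx]
    have hsub : Icc 0 x ⊆ Icc 0 L := Icc_subset_Icc_right hx.2
    have h1 : |∫ z in (0)..x, f' z| ≤ ∫ z in (0)..x, |f' z| :=
      intervalIntegral.abs_integral_le_integral_abs hx.1
    have h2 : (∫ z in (0)..x, |f' z|) * P = ∫ z in (0)..x, P * |f' z| := by
      rw [intervalIntegral.integral_const_mul, mul_comm]
    have h3 : ∫ z in (0)..x, P * |f' z| ≤ ∫ z in (0)..x, g z := by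
      apply intervalIntegral.integral_mono_on hx.1
      · exact (continuousOn_const.mul (hf'.mono hsub).abs).intervalIntegrable_of_Icc hx.1
      · exact (hgc.mono hsub).intervalIntegrable_of_Icc hx.1
      · intro z hz
        exact hpt z (hsub hz)
    have h4 : ∫ z in (0)..x, g z ≤ K := by
      rw [hK]
      apply intervalIntegral.integral_mono_interval le_rfl hx.1 hx.2 _ hgi
      exact Filter.Eventually.of_forall hg0
    calc |∫ z in (0)..x, f' z| * P ≤ (∫ z in (0)..x, |f' z|) * P :=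
          mul_le_mul_of_nonneg_right h1 hP
      _ ≤ K := by rw [h2]; exact h3.trans h4
  have e : ∫ x in (0)..L, f x * ψ x = ∫ x in (0)..L, (f x - f 0) * ψ x := by
    have e1 : ∫ x in (0)..L, (f x - f 0) * ψ x =
        (∫ x in (0)..L, f x * ψ x) - ∫ x in (0)..L, f 0 * ψ x := by
      rw [← intervalIntegral.integral_sub]
      · apply intervalIntegral.integral_congr
        intro x _
        simp only
        ring
      · exact (hfc.mul hψ).intervalIntegrable_of_Icc hL.le
      · exact (continuousOn_const.mul hψ).intervalIntegrable_of_Icc hL.le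
    rw [e1, intervalIntegral.integral_const_mul, hψ0, mul_zero, sub_zero]
  rw [e]
  have hfin := intervalIntegral.norm_integral_le_of_norm_le_const (a := (0 : ℝ)) (b := L)
    (f := fun x => (f x - f 0) * ψ x) (C := K) (fun x hx => by
      rw [uIoc_of_le hL.le] at hx
      have hx' : x ∈ Icc 0 L := ⟨hx.1.le, hx.2⟩
      rw [Real.norm_eq_abs, abs_mul]
      exact (mul_le_mul_of_nonneg_left (hψP x hx') (abs_nonneg _)).trans (hosc x hx'))
  rw [Real.norm_eq_abs, sub_zero, abs_of_pos hL] at hfin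
  exact hfin

end Pool.Agent.Lib.MP_4fbe7c_an.FC.H21
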